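import Pool.Agent.H34.Opz.Op4

set_option autoImplicit false

namespace Pool.Agent.H34.Opz

open Polynomial Finset

theorem det_pos (c : ℕ → ℝ) (hc : ∀ k, 0 < c k) (N : ℕ) : 0 < det c (N + 1) := by
  induction N with
  | zero =>
    have h0 := hc 0
    have h1 := hc 1
    simp [det, S, Finset.sum_range_succ]
    nlinarith [mul_pos h0 h1]
  | succ N ih =>
    rw [det_succ]
    have : 0 ≤ V c (N + 1 + 1) := Finset.sum_nonneg fun k _ => mul_nonneg (hc k).le (sq_nonneg _)
    have := mul_nonneg (hc (N + 1 + 1)).le this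
    linarith

/-- The slope function is strictly decreasing. -/
theorem slope_anti (a b : ℝ) (ha : 0 < a) (hb : 4 * b ^ 2 ≤ a ^ 2) :
    StrictAntiOn (fun x : ℝ => (1 - Real.exp (-a * x) * Real.cos (b * x)) / x) (Set.Ioi 0) := by
  have hd : ∀ x : ℝ, x ≠ 0 → HasDerivAt
      (fun x : ℝ => (1 - Real.exp (-a * x) * Real.cos (b * x)) / x)
      (((-(Real.exp (-a * x) * (-a) * Real.cos (b * x)
        + Real.exp (-a * x) * (-Real.sin (b * x) * b))) * x
        - (1 - Real.exp (-a * x) * Real.cos (b * x)) * 1) / x ^ 2) x := by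
    intro x hx
    have h1 : HasDerivAt (fun x : ℝ => -a * x) (-a) x := by
      simpa using (hasDerivAt_id x).const_mul (-a)
    have h2 : HasDerivAt (fun x : ℝ => b * x) b x := by
      simpa using (hasDerivAt_id x).const_mul b
    have h3 := (h1.exp.mul h2.cos).const_sub 1
    exact h3.div (hasDerivAt_id x) hx
  refine strictAntiOn_of_deriv_neg (convex_Ioi 0)
    (fun x hx => (hd x (ne_of_gt hx)).continuousAt.continuousWithinAt) fun x hx => ?_
  rw [interior_Ioi] at hx
  have hx' : 0 < x := hx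
  rw [(hd x hx'.ne').deriv]
  apply div_neg_of_neg_of_pos _ (by positivity)
  have hu : 0 < a * x := mul_pos ha hx'
  have q1 := Real.quadratic_le_exp_of_nonneg hu.le
  have q2 : Real.cos (b * x) ≤ 1 := Real.cos_le_one _
  have q3 : (b * x) * Real.sin (b * x) ≤ (b * x) ^ 2 := by
    have := Real.abs_sin_le_abs (x := b * x)
    calc (b * x) * Real.sin (b * x) ≤ |(b * x) * Real.sin (b * x)| := le_abs_self _
      _ = |b * x| * |Real.sin (b * x)| := abs_mul _ _
      _ ≤ |b * x| * |b * x| := by gcongr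
      _ = (b * x) ^ 2 := by rw [← abs_mul, ← sq, abs_of_nonneg (sq_nonneg _)]
  have q4 : (b * x) ^ 2 ≤ (a * x) ^ 2 / 4 := by
    have := mul_le_mul_of_nonneg_right hb (sq_nonneg x)
    nlinarith
  have q5 : (1 + a * x) * Real.cos (b * x) + (b * x) * Real.sin (b * x) < Real.exp (a * x) := by
    have : 0 < (a * x) ^ 2 := by positivity
    nlinarith
  have q6 : Real.exp (-a * x) * ((1 + a * x) * Real.cos (b * x) + (b * x) * Real.sin (b * x)) < 1 := by
    have e : Real.exp (-a * x) * Real.exp (a * x) = 1 := by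
      rw [← Real.exp_add]; simp
    calc _ < Real.exp (-a * x) * Real.exp (a * x) := by gcongr
      _ = 1 := e
  nlinarith

theorem one_good (c : ℕ → ℝ) (hc : ∀ k, 0 < c k) (n : ℕ) (q : ℂ[X])
    (hq : IsOPA (fun k => (c k)⁻¹) ((X - C 1) ^ 2) n q) (a b : ℝ) (ha : 0 < a)
    (hb : 4 * b ^ 2 ≤ a ^ 2) : q.eval (Complex.exp (-a + b * Complex.I)) ≠ 0 := by
  intro hz
  set z := Complex.exp (-a + b * Complex.I) with hzd
  set N := n + 2 with hN
  have hd : 0 < det c N := det_pos c hc (n + 1)
  obtain ⟨q0, -, h2, h3⟩ := opa_iff c hc n hd.ne'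
  rw [← h2 q hq] at h3
  set α := S c 2 N / det c N with hα
  set β := -S c 1 N / det c N with hβ
  have hP : (P c N α β).eval z = 1 := by
    have := congrArg (eval z) h3
    simp only [eval_sub, eval_one, eval_mul, hz, zero_mul] at this
    exact (sub_eq_zero.1 this).symm
  obtain ⟨e1, e2⟩ := P_one c N α β
  have zk : ∀ k : ℕ, (z ^ k).re = Real.exp (-a * k) * Real.cos (b * k) := fun k => by
    rw [hzd, ← Complex.exp_nat_mul, show (k : ℂ) * (-a + b * Complex.I) =
      ((-a * k : ℝ) : ℂ) + ((b * k : ℝ) : ℂ) * Complex.I by push_cast; ring, Complex.exp_add,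
      ← Complex.ofReal_exp, Complex.re_ofReal_mul, Complex.exp_ofReal_mul_I_re]
  have r1 : ∑ k ∈ range (N + 1), c k * (α + β * k) * (Real.exp (-a * k) * Real.cos (b * k)) = 1 := by
    have := congrArg Complex.re hP
    simp only [P, eval_finsetSum, eval_monomial, Complex.re_sum, Complex.one_re] at this
    rw [← this]
    exact Finset.sum_congr rfl fun k _ => by rw [Complex.re_ofReal_mul, zk]
  have s0 : 0 < S c 0 N := Finset.sum_pos (fun k _ => by have := hc k; positivity) ⟨0, by simp⟩
  have s1 : 0 < S c 1 N := by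
    refine Finset.sum_pos' (fun k _ => by have := hc k; positivity)
      ⟨1, Finset.mem_range.2 (by omega), ?_⟩
    have := hc 1
    simp [this]
  have s2 : 0 < S c 2 N := by
    refine Finset.sum_pos' (fun k _ => by have := hc k; positivity)
      ⟨1, Finset.mem_range.2 (by omega), ?_⟩
    have := hc 1
    simp [this]
  have r2 : ∑ k ∈ range (N + 1), c k * (α + β * k) = 1 := by
    have : ∑ k ∈ range (N + 1), c k * (α + β * k) = α * S c 0 N + β * S c 1 N := by
      simp only [S, Finset.mul_sum, ← Finset.sum_add_distrib]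
      exact Finset.sum_congr rfl fun k _ => by ring
    rw [this, hα, hβ]
    field_simp
    rw [det]; ring
  have r3 : ∑ k ∈ range (N + 1), c k * (α + β * k) * k = 0 := by
    have : ∑ k ∈ range (N + 1), c k * (α + β * k) * k = α * S c 1 N + β * S c 2 N := by
      simp only [S, Finset.mul_sum, ← Finset.sum_add_distrib]
      exact Finset.sum_congr rfl fun k _ => by ring
    rw [this, hα, hβ]
    ring
  set x₀ := S c 2 N / S c 1 N with hx₀
  have x0 : 0 < x₀ := div_pos s2 s1
  set h : ℝ → ℝ := fun x => (1 - Real.exp (-a * x) * Real.cos (b * x)) / x with hh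
  have han : StrictAntiOn h (Set.Ioi 0) := slope_anti a b ha hb
  have hαβ : ∀ k : ℝ, α + β * k = S c 1 N / det c N * (x₀ - k) := fun k => by
    rw [hα, hβ, hx₀]; field_simp; ring
  set T : ℕ → ℝ := fun k => c k * (α + β * k) *
    (1 - Real.exp (-a * k) * Real.cos (b * k) - h x₀ * k) with hT
  have hsum : ∑ k ∈ range (N + 1), T k = 0 := by
    have : ∑ k ∈ range (N + 1), T k = ∑ k ∈ range (N + 1), c k * (α + β * k)
        - ∑ k ∈ range (N + 1), c k * (α + β * k) * (Real.exp (-a * k) * Real.cos (b * k))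
        - h x₀ * ∑ k ∈ range (N + 1), c k * (α + β * k) * k := by
      rw [Finset.mul_sum, ← Finset.sum_sub_distrib, ← Finset.sum_sub_distrib]
      exact Finset.sum_congr rfl fun k _ => by rw [hT]; ring
    rw [this, r1, r2, r3]; ring
  have hTk : ∀ k : ℕ, 0 < k → T k =
      (c k * (S c 1 N / det c N) * k) * ((x₀ - k) * (h k - h x₀)) := fun k hk => by
    have hk' : (k : ℝ) ≠ 0 := by exact_mod_cast hk.ne'
    have : 1 - Real.exp (-a * k) * Real.cos (b * k) = k * h k := by
      rw [hh]; field_simp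
    rw [hT]; simp only []
    rw [hαβ, this]; ring
  have hsgn : ∀ k : ℕ, 0 < k → (k : ℝ) ≠ x₀ → 0 < T k := fun k hk hne => by
    have hk' : (0 : ℝ) < k := by exact_mod_cast hk
    rw [hTk k hk]
    refine mul_pos (mul_pos (mul_pos (hc k) (div_pos s1 hd)) hk') ?_
    rcases lt_or_gt_of_ne hne with h1 | h1
    · exact mul_pos (by linarith) (sub_pos.2 (han hk' x0 h1))
    · exact mul_pos_of_neg_of_neg (by linarith) (sub_neg.2 (han x0 hk' h1))
  have hnn : ∀ k ∈ range (N + 1), 0 ≤ T k := fun k _ => by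
    rcases Nat.eq_zero_or_pos k with h0 | h0
    · rw [h0, hT]; simp
    · rcases eq_or_ne (k : ℝ) x₀ with h1 | h1
      · rw [hTk k h0, h1]; simp
      · exact (hsgn k h0 h1).le
  rw [Finset.sum_eq_zero_iff_of_nonneg hnn] at hsum
  have k1 : (1 : ℝ) = x₀ := by
    by_contra hne
    exact absurd (hsum 1 (Finset.mem_range.2 (by omega)))
      (hsgn 1 one_pos (by simpa using hne)).ne'
  have k2 : (2 : ℝ) = x₀ := by
    by_contra hne
    exact absurd (hsum 2 (Finset.mem_range.2 (by omega)))
      (hsgn 2 two_pos (by simpa using hne)).ne'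
  linarith

/-- One sector with vertex `1` contains no zero of any optimal approximant, for any weight. -/
theorem one_sector (c : ℕ → ℝ) (hc : ∀ k, 0 < c k) (n : ℕ) (q : ℂ[X])
    (hq : IsOPA (fun k => (c k)⁻¹) ((X - C 1) ^ 2) n q) (r θ : ℝ) (hr : 0 < r) (hr1 : r < 1 / 10)
    (h1 : Real.pi - 1 / 10 < θ) (h2 : θ < Real.pi + 1 / 10) :
    q.eval (1 + r * Complex.exp (θ * Complex.I)) ≠ 0 := by
  set u : ℂ := r * Complex.exp (θ * Complex.I) with hu
  have hun : ‖u‖ = r := by
    rw [hu, norm_mul, Complex.norm_exp_ofReal_mul_I, Complex.norm_real, Real.norm_eq_abs,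
      abs_of_pos hr, mul_one]
  have hlog := Complex.norm_log_one_add_sub_self_le (z := u) (by rw [hun]; linarith)
  rw [hun] at hlog
  have hlog' : ‖Complex.log (1 + u) - u‖ ≤ r ^ 2 := by
    refine hlog.trans ?_
    have : (1 - r)⁻¹ ≤ 2 := by
      rw [inv_le_comm₀ (by linarith) (by norm_num)]; linarith
    have := mul_le_mul_of_nonneg_left this (sq_nonneg r)
    linarith
  have hne : (1 : ℂ) + u ≠ 0 := fun h => by
    have : ‖u‖ = 1 := by
      rw [show u = -1 by linear_combination h]; simp
    rw [hun] at this; linarith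
  set L := Complex.log (1 + u) with hL
  have hexp : Complex.exp L = 1 + u := Complex.exp_log hne
  have ure : u.re = r * Real.cos θ := by
    rw [hu, Complex.re_ofReal_mul, Complex.exp_ofReal_mul_I_re]
  have uim : u.im = r * Real.sin θ := by
    rw [hu, Complex.im_ofReal_mul, Complex.exp_ofReal_mul_I_im]
  have cs : Real.cos θ ≤ -(99 / 100) := by
    have e : Real.cos θ = -Real.cos (θ - Real.pi) := by rw [Real.cos_sub_pi]; ring
    have := Real.one_sub_sq_div_two_le_cos (x := θ - Real.pi)
    rw [e]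
    nlinarith
  have sn : |Real.sin θ| ≤ 1 / 10 := by
    have e : Real.sin θ = -Real.sin (θ - Real.pi) := by rw [Real.sin_sub_pi]; ring
    rw [e, abs_neg]
    exact (Real.abs_sin_le_abs).trans (abs_le.2 ⟨by linarith, by linarith⟩)
  have l1 : L.re ≤ -(8 / 10) * r := by
    have k := (Complex.abs_re_le_norm (L - u)).trans hlog'
    rw [Complex.sub_re, ure, abs_le] at k
    nlinarith [k.2]
  have l2 : |L.im| ≤ 2 / 10 * r := by
    have k := (Complex.abs_im_le_norm (L - u)).trans hlog'
    rw [Complex.sub_im, uim] at k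
    have k2 : |r * Real.sin θ| ≤ r * (1 / 10) := by
      rw [abs_mul, abs_of_pos hr]; gcongr
    have k3 := abs_add_le (L.im - r * Real.sin θ) (r * Real.sin θ)
    rw [sub_add_cancel] at k3
    nlinarith
  have l3 : L = -((-L.re : ℝ) : ℂ) + (L.im : ℝ) * Complex.I := by
    rw [Complex.ofReal_neg, neg_neg, Complex.re_add_im]
  rw [← hexp, l3]
  refine one_good c hc n q hq (-L.re) L.im (by nlinarith) ?_
  have l4 : L.im ^ 2 ≤ (2 / 10 * r) ^ 2 := by
    rw [← sq_abs]; gcongr
  nlinarith

end Pool.Agent.H34.Opz
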