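import Pool.Agent.H34.Opz.OpDefs

set_option autoImplicit false

namespace Pool.Agent.H34.Opz

open Polynomial Finset

noncomputable def S (c : ℕ → ℝ) (e N : ℕ) : ℝ := ∑ k ∈ range (N + 1), c k * (k : ℝ) ^ e

noncomputable def det (c : ℕ → ℝ) (N : ℕ) : ℝ := S c 0 N * S c 2 N - S c 1 N ^ 2

/-- The polynomial with coefficients `c_k (α + β k)`, `k ≤ N`. -/
noncomputable def P (c : ℕ → ℝ) (N : ℕ) (α β : ℝ) : ℂ[X] :=
  ∑ k ∈ range (N + 1), monomial k ((c k * (α + β * k) : ℝ) : ℂ)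

theorem P_coeff (c : ℕ → ℝ) (N : ℕ) (α β : ℝ) (k : ℕ) :
    (P c N α β).coeff k = if k < N + 1 then ((c k * (α + β * k) : ℝ) : ℂ) else 0 := by
  simp only [P, finsetSum_coeff, coeff_monomial, Finset.sum_ite_eq', Finset.mem_range]

theorem P_deg (c : ℕ → ℝ) (N : ℕ) (α β : ℝ) : (P c N α β).natDegree ≤ N :=
  natDegree_le_iff_coeff_eq_zero.2 fun k hk => by rw [P_coeff, if_neg (by omega)]

theorem P_eval (c : ℕ → ℝ) (N : ℕ) (α β : ℝ) (z : ℂ) :
    (P c N α β).eval z = α * ∑ k ∈ range (N + 1), (c k : ℂ) * z ^ k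
      + β * ∑ k ∈ range (N + 1), (c k : ℂ) * k * z ^ k := by
  simp only [P, eval_finsetSum, eval_monomial, Finset.mul_sum, ← Finset.sum_add_distrib]
  exact Finset.sum_congr rfl fun k _ => by push_cast; ring

theorem sums (g : ℂ[X]) (N : ℕ) (h : g.natDegree ≤ N) :
    g.eval 1 = ∑ k ∈ range (N + 1), g.coeff k ∧
    g.derivative.eval 1 = ∑ k ∈ range (N + 1), g.coeff k * k := by
  constructor
  · rw [eval_eq_sum_range' (Nat.lt_succ_of_le h)]; simp
  · conv_lhs => rw [g.as_sum_range' _ (Nat.lt_succ_of_le h)]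
    simp [derivative_sum, eval_finsetSum, derivative_monomial]

theorem P_one (c : ℕ → ℝ) (N : ℕ) (α β : ℝ) :
    (P c N α β).eval 1 = ((α * S c 0 N + β * S c 1 N : ℝ) : ℂ) ∧
    (P c N α β).derivative.eval 1 = ((α * S c 1 N + β * S c 2 N : ℝ) : ℂ) := by
  obtain ⟨h1, h2⟩ := sums _ N (P_deg c N α β)
  rw [h1, h2]
  simp only [S, Finset.mul_sum, ← Finset.sum_add_distrib, Complex.ofReal_sum]
  constructor <;> refine Finset.sum_congr rfl fun k hk => ?_ <;>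
    rw [P_coeff, if_pos (Finset.mem_range.1 hk)] <;> push_cast <;> ring

theorem dvd_of (g : ℂ[X]) (h1 : g.eval 1 = 0) (h2 : g.derivative.eval 1 = 0) :
    ∃ q : ℂ[X], g = q * (X - C 1) ^ 2 := by
  obtain ⟨g1, rfl⟩ := dvd_iff_isRoot.2 h1
  have : g1.eval 1 = 0 := by simpa [derivative_mul] using h2
  obtain ⟨g2, rfl⟩ := dvd_iff_isRoot.2 this
  exact ⟨g2, by ring⟩

theorem nsq_fin (ω : ℕ → ℝ) (a : ℕ → ℂ) (N : ℕ) (h : ∀ k, N + 1 ≤ k → a k = 0) :
    nsq ω a = ∑ k ∈ range (N + 1), ‖a k‖ ^ 2 * ω k :=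
  tsum_eq_sum fun k hk => by rw [h k (by simpa using hk)]; simp

theorem nsq_P (c : ℕ → ℝ) (hc : ∀ k, 0 < c k) (N : ℕ) (α β : ℝ) :
    ∑ k ∈ range (N + 1), ‖(P c N α β).coeff k‖ ^ 2 * (c k)⁻¹
      = α ^ 2 * S c 0 N + 2 * α * β * S c 1 N + β ^ 2 * S c 2 N := by
  simp only [S, Finset.mul_sum, ← Finset.sum_add_distrib]
  refine Finset.sum_congr rfl fun k hk => ?_
  rw [P_coeff, if_pos (Finset.mem_range.1 hk), Complex.norm_real, Real.norm_eq_abs, sq_abs]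
  have := (hc k).ne'
  field_simp
  ring

theorem opa_full (c : ℕ → ℝ) (hc : ∀ k, 0 < c k) (n : ℕ) (hd : det c (n + 2) ≠ 0) :
    ∃ q : ℂ[X], q.natDegree ≤ n ∧
      1 - P c (n + 2) (S c 2 (n + 2) / det c (n + 2)) (-S c 1 (n + 2) / det c (n + 2)) =
        q * (X - C 1) ^ 2 ∧
      ∀ p : ℂ[X], p.natDegree ≤ n →
        nsq (fun k => (c k)⁻¹) (p * (X - C 1) ^ 2 - 1).coeff =
          nsq (fun k => (c k)⁻¹) (q * (X - C 1) ^ 2 - 1).coeff +
          ∑ k ∈ range (n + 2 + 1), ‖((p - q) * (X - C 1) ^ 2).coeff k‖ ^ 2 * (c k)⁻¹ := by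
  set N := n + 2 with hN
  set α := S c 2 N / det c N
  set β := -S c 1 N / det c N
  obtain ⟨e1, e2⟩ := P_one c N α β
  have a1 : α * S c 0 N + β * S c 1 N = 1 := by
    simp only [α, β]; field_simp; rw [det]; ring
  have a2 : α * S c 1 N + β * S c 2 N = 0 := by simp only [α, β]; ring
  rw [a1] at e1
  rw [a2] at e2
  set r := P c N α β with hr
  obtain ⟨q, hq⟩ := dvd_of (1 - r) (by simp [e1]) (by simp [e2])
  have hm : ((X - C 1 : ℂ[X]) ^ 2).Monic := (monic_X_sub_C 1).pow 2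
  have hf : ((X - C 1 : ℂ[X]) ^ 2).natDegree = 2 := by
    rw [natDegree_pow, natDegree_X_sub_C]
  have hrd : r.natDegree ≤ N := P_deg _ _ _ _
  have hdeg : ∀ p : ℂ[X], p.natDegree ≤ n → (p * (X - C 1) ^ 2).natDegree ≤ N := fun p hp =>
    natDegree_mul_le.trans (by omega)
  have hqd : q.natDegree ≤ n := by
    rcases eq_or_ne q 0 with h | h
    · simp [h]
    · have h1 : (q * (X - C 1) ^ 2).natDegree = q.natDegree + 2 := by
        rw [natDegree_mul h hm.ne_zero, hf]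
      have h2 : (1 - r).natDegree ≤ N := (natDegree_sub_le _ _).trans (by simpa using hrd)
      rw [hq, h1] at h2
      omega
  refine ⟨q, hqd, hq, fun p hp => ?_⟩
  set g := (p - q) * (X - C 1) ^ 2 with hg
  have hgd : g.natDegree ≤ N := hdeg _ ((natDegree_sub_le _ _).trans (max_le hp hqd))
  have b1 : q * (X - C 1) ^ 2 - 1 = -r := by rw [← hq]; ring
  have b2 : p * (X - C 1) ^ 2 - 1 = g - r := by rw [hg, sub_mul, ← hq]; ring
  obtain ⟨s1, s2⟩ := sums g N hgd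
  have g1 : g.eval 1 = 0 := by simp [hg]
  have g2 : g.derivative.eval 1 = 0 := by simp [hg, derivative_mul, derivative_pow]
  have t1 : ∑ k ∈ range (N + 1), (g.coeff k).re = 0 := by
    rw [← Complex.re_sum, ← s1, g1, Complex.zero_re]
  have t2 : ∑ k ∈ range (N + 1), (g.coeff k).re * k = 0 := by
    have := congrArg Complex.re s2
    rw [g2, Complex.re_sum] at this
    simpa using this.symm
  rw [b1, b2, nsq_fin _ _ N, nsq_fin _ _ N]
  · have : ∑ k ∈ range (N + 1), ‖(-r).coeff k‖ ^ 2 * (c k)⁻¹ =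
        ∑ k ∈ range (N + 1), (‖(-r).coeff k‖ ^ 2 * (c k)⁻¹
          - 2 * α * (g.coeff k).re - 2 * β * ((g.coeff k).re * k)) := by
      simp only [Finset.sum_sub_distrib, ← Finset.mul_sum, t1, t2]; ring
    rw [this, ← Finset.sum_add_distrib]
    refine Finset.sum_congr rfl fun k hk => ?_
    rw [coeff_neg, coeff_sub, norm_neg, hr, P_coeff, if_pos (Finset.mem_range.1 hk),
      Complex.sq_norm, Complex.sq_norm, Complex.sq_norm, Complex.normSq_apply,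
      Complex.normSq_apply, Complex.normSq_apply]
    simp only [Complex.sub_re, Complex.sub_im, Complex.ofReal_re, Complex.ofReal_im]
    have h0 := (hc k).ne'
    field_simp; ring
  · intro k hk
    rw [coeff_neg, coeff_eq_zero_of_natDegree_lt (by omega), neg_zero]
  · intro k hk
    rw [coeff_sub, coeff_eq_zero_of_natDegree_lt (by omega),
      coeff_eq_zero_of_natDegree_lt (by omega), sub_zero]

/-- The optimal polynomial approximants of `(1 - z)⁻²`: existence, uniqueness and formula. -/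
theorem opa_iff (c : ℕ → ℝ) (hc : ∀ k, 0 < c k) (n : ℕ) (hd : det c (n + 2) ≠ 0) :
    ∃ q : ℂ[X], IsOPA (fun k => (c k)⁻¹) ((X - C 1) ^ 2) n q ∧
      (∀ q', IsOPA (fun k => (c k)⁻¹) ((X - C 1) ^ 2) n q' → q' = q) ∧
      1 - P c (n + 2) (S c 2 (n + 2) / det c (n + 2)) (-S c 1 (n + 2) / det c (n + 2)) =
        q * (X - C 1) ^ 2 := by
  obtain ⟨q, h1, h2, h3⟩ := opa_full c hc n hd
  refine ⟨q, ⟨h1, fun p hp => ?_⟩, fun p hp => ?_, h2⟩
  · rw [h3 p hp]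
    have : 0 ≤ ∑ k ∈ range (n + 2 + 1), ‖((p - q) * (X - C 1) ^ 2).coeff k‖ ^ 2 * (c k)⁻¹ :=
      Finset.sum_nonneg fun k _ => mul_nonneg (sq_nonneg _) (inv_pos.2 (hc k)).le
    linarith
  · have h4 := h3 p hp.1
    have h5 := hp.2 q h1
    have h6 : ∀ k ∈ range (n + 2 + 1), 0 ≤ ‖((p - q) * (X - C 1) ^ 2).coeff k‖ ^ 2 * (c k)⁻¹ :=
      fun k _ => mul_nonneg (sq_nonneg _) (inv_pos.2 (hc k)).le
    have h7 : ∑ k ∈ range (n + 2 + 1), ‖((p - q) * (X - C 1) ^ 2).coeff k‖ ^ 2 * (c k)⁻¹ = 0 :=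
      le_antisymm (by linarith) (Finset.sum_nonneg h6)
    rw [Finset.sum_eq_zero_iff_of_nonneg h6] at h7
    have h8 : (p - q) * (X - C 1) ^ 2 = 0 := by
      ext k
      rw [coeff_zero]
      by_cases hk : k < n + 2 + 1
      · have := h7 k (Finset.mem_range.2 hk)
        rcases mul_eq_zero.1 this with h | h
        · exact norm_eq_zero.1 (pow_eq_zero_iff (two_ne_zero)|>.1 h)
        · exact absurd h (inv_pos.2 (hc k)).ne'
      · refine coeff_eq_zero_of_natDegree_lt ?_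
        have a1 : (p - q).natDegree ≤ n := (natDegree_sub_le _ _).trans (max_le hp.1 h1)
        have a2 : ((X - C 1 : ℂ[X]) ^ 2).natDegree = 2 := by
          rw [natDegree_pow, natDegree_X_sub_C]
        have a3 := natDegree_mul_le (p := p - q) (q := (X - C 1 : ℂ[X]) ^ 2)
        omega
    have h9 : ((X - C 1 : ℂ[X]) ^ 2) ≠ 0 := ((monic_X_sub_C 1).pow 2).ne_zero
    exact sub_eq_zero.1 ((mul_eq_zero.1 h8).resolve_right h9)

theorem opa (c : ℕ → ℝ) (hc : ∀ k, 0 < c k) (n : ℕ) (hd : det c (n + 2) ≠ 0) :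
    ∃ q : ℂ[X], IsOPA (fun k => (c k)⁻¹) ((X - C 1) ^ 2) n q ∧ ∀ z : ℂ, z ≠ 1 →
      (P c (n + 2) (S c 2 (n + 2)) (-S c 1 (n + 2))).eval z = det c (n + 2) → q.eval z = 0 := by
  obtain ⟨q, h1, -, hq⟩ := opa_iff c hc n hd
  refine ⟨q, h1, fun z hz hz2 => ?_⟩
  have hd' : (det c (n + 2) : ℂ) ≠ 0 := by exact_mod_cast hd
  have : (P c (n + 2) (S c 2 (n + 2) / det c (n + 2))
      (-S c 1 (n + 2) / det c (n + 2))).eval z = 1 := by
    rw [P_eval] at hz2
    rw [P_eval]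
    push_cast at hz2 ⊢
    field_simp
    linear_combination hz2
  have h2 := congrArg (eval z) hq
  simp only [eval_sub, eval_one, this, sub_self, eval_mul, eval_pow, eval_X, eval_C] at h2
  exact (mul_eq_zero.1 h2.symm).resolve_right (pow_ne_zero _ (sub_ne_zero.2 hz))

theorem S_nonneg (c : ℕ → ℝ) (hc : ∀ k, 0 < c k) (e N : ℕ) : 0 ≤ S c e N :=
  Finset.sum_nonneg fun k _ => by have := hc k; positivity

theorem cyclic (c : ℕ → ℝ) (hc : ∀ k, 0 < c k)
    (h : ∀ δ > 0, ∃ N, 0 < det c N ∧ S c 2 N ≤ δ * det c N ∧ S c 0 N ≤ δ * det c N) :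
    IsCyclic (fun k => (c k)⁻¹) ((X - C 1) ^ 2) := by
  intro a ha ε hε
  obtain ⟨M, hM⟩ := ((tendsto_sum_nat_add fun k => ‖a k‖ ^ 2 * (c k)⁻¹).eventually
    (gt_mem_nhds (show 0 < ε / 6 by positivity))).exists
  set g : ℂ[X] := ∑ k ∈ range M, monomial k (a k) with hg
  have hgc : ∀ k, g.coeff k = if k < M then a k else 0 := fun k => by
    simp only [hg, finsetSum_coeff, coeff_monomial, Finset.sum_ite_eq', Finset.mem_range]
  set u := g.eval 1
  set v := g.derivative.eval 1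
  obtain ⟨N, hd, h2, h0⟩ := h (ε / (8 * (‖u‖ ^ 2 + ‖v‖ ^ 2 + 1))) (by positivity)
  set δ := ε / (8 * (‖u‖ ^ 2 + ‖v‖ ^ 2 + 1)) with hδ
  set r := P c N (S c 2 N / det c N) (-S c 1 N / det c N) with hr
  set s := P c N (-S c 1 N / det c N) (S c 0 N / det c N) with hs
  obtain ⟨r1, r2⟩ := P_one c N (S c 2 N / det c N) (-S c 1 N / det c N)
  obtain ⟨s1, s2⟩ := P_one c N (-S c 1 N / det c N) (S c 0 N / det c N)
  rw [show S c 2 N / det c N * S c 0 N + -S c 1 N / det c N * S c 1 N = 1 by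
    field_simp; rw [det]; ring] at r1
  rw [show S c 2 N / det c N * S c 1 N + -S c 1 N / det c N * S c 2 N = 0 by ring] at r2
  rw [show -S c 1 N / det c N * S c 0 N + S c 0 N / det c N * S c 1 N = 0 by ring] at s1
  rw [show -S c 1 N / det c N * S c 1 N + S c 0 N / det c N * S c 2 N = 1 by
    field_simp; rw [det]; ring] at s2
  obtain ⟨p, hp⟩ := dvd_of (g - C u * r - C v * s) (by simp [hr, hs, r1, s1, u])
    (by simp [hr, hs, r2, s2, v])
  have nr : ∑ k ∈ range (N + 1), ‖r.coeff k‖ ^ 2 * (c k)⁻¹ ≤ δ := by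
    rw [hr, nsq_P c hc, show (S c 2 N / det c N) ^ 2 * S c 0 N + 2 * (S c 2 N / det c N) *
      (-S c 1 N / det c N) * S c 1 N + (-S c 1 N / det c N) ^ 2 * S c 2 N = S c 2 N / det c N by
        field_simp; rw [det]; ring]
    exact (div_le_iff₀ hd).2 h2
  have ns : ∑ k ∈ range (N + 1), ‖s.coeff k‖ ^ 2 * (c k)⁻¹ ≤ δ := by
    rw [hs, nsq_P c hc, show (-S c 1 N / det c N) ^ 2 * S c 0 N + 2 * (-S c 1 N / det c N) *
      (S c 0 N / det c N) * S c 1 N + (S c 0 N / det c N) ^ 2 * S c 2 N = S c 0 N / det c N by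
        field_simp; rw [det]; ring]
    exact (div_le_iff₀ hd).2 h0
  have H1 : HasSum (fun k => ‖a k - g.coeff k‖ ^ 2 * (c k)⁻¹)
      (∑' k, ‖a (k + M)‖ ^ 2 * (c (k + M))⁻¹) := by
    rw [← hasSum_nat_add_iff' M, Finset.sum_eq_zero fun k hk => by
      rw [hgc, if_pos (Finset.mem_range.1 hk)]; simp, sub_zero]
    simp only [hgc, show ∀ k, ¬(k + M < M) from fun k => by omega, if_false, sub_zero]
    exact ((summable_nat_add_iff (f := fun k => ‖a k‖ ^ 2 * (c k)⁻¹) M).2 ha).hasSum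
  have H2 : HasSum (fun k => ‖r.coeff k‖ ^ 2 * (c k)⁻¹) _ :=
    hasSum_sum_of_ne_finset_zero (s := range (N + 1)) fun k hk => by
      rw [hr, P_coeff, if_neg (by simpa using hk)]; simp
  have H3 : HasSum (fun k => ‖s.coeff k‖ ^ 2 * (c k)⁻¹) _ :=
    hasSum_sum_of_ne_finset_zero (s := range (N + 1)) fun k hk => by
      rw [hs, P_coeff, if_neg (by simpa using hk)]; simp
  have H := ((H1.mul_left 3).add (H2.mul_left (3 * ‖u‖ ^ 2))).add (H3.mul_left (3 * ‖v‖ ^ 2))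
  have hb : ∀ k, ‖a k - (p * (X - C 1) ^ 2).coeff k‖ ^ 2 * (c k)⁻¹ ≤
      3 * (‖a k - g.coeff k‖ ^ 2 * (c k)⁻¹) + 3 * ‖u‖ ^ 2 * (‖r.coeff k‖ ^ 2 * (c k)⁻¹)
        + 3 * ‖v‖ ^ 2 * (‖s.coeff k‖ ^ 2 * (c k)⁻¹) := by
    intro k
    have e : a k - (p * (X - C 1) ^ 2).coeff k
        = (a k - g.coeff k) + u * r.coeff k + v * s.coeff k := by
      rw [← hp]; simp only [coeff_sub, coeff_C_mul]; ring
    have e2 := norm_add₃_le (a := a k - g.coeff k) (b := u * r.coeff k) (c := v * s.coeff k)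
    rw [← e, norm_mul, norm_mul] at e2
    have e3 := pow_le_pow_left₀ (norm_nonneg _) e2 2
    have e4 : (0 : ℝ) < (c k)⁻¹ := inv_pos.2 (hc k)
    set x := ‖a k - g.coeff k‖
    set y := ‖u‖ * ‖r.coeff k‖ with hy
    set z := ‖v‖ * ‖s.coeff k‖ with hz
    calc _ ≤ (3 * x ^ 2 + 3 * y ^ 2 + 3 * z ^ 2) * (c k)⁻¹ := by
          gcongr
          nlinarith [sq_nonneg (x - y), sq_nonneg (y - z), sq_nonneg (x - z)]
      _ = _ := by rw [hy, hz]; ring
  refine ⟨p, ?_⟩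
  have hle := Summable.tsum_le_tsum hb (H.summable.of_nonneg_of_le
    (fun k => mul_nonneg (sq_nonneg _) (inv_pos.2 (hc k)).le) hb) H.summable
  rw [H.tsum_eq] at hle
  have k1 : 3 * ‖u‖ ^ 2 * δ + 3 * ‖v‖ ^ 2 * δ ≤ 3 * ε / 8 := by
    have : δ * (8 * (‖u‖ ^ 2 + ‖v‖ ^ 2 + 1)) = ε := by rw [hδ]; field_simp
    have : 0 < δ := by positivity
    nlinarith
  have k2 := mul_le_mul_of_nonneg_left nr (show 0 ≤ 3 * ‖u‖ ^ 2 by positivity)
  have k3 := mul_le_mul_of_nonneg_left ns (show 0 ≤ 3 * ‖v‖ ^ 2 by positivity)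
  unfold nsq
  linarith

end Pool.Agent.H34.Opz
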