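import Pool.Agent.H34.Opz.Op1

set_option autoImplicit false

namespace Pool.Agent.H34.Opz

open Complex Metric

theorem zero_near (n : ℕ) (hn0 : 0 < n) (ρ α β a : ℝ) (h1 : 1 ≤ ρ) (h2 : ρ ≤ 2)
    (hα : 0 ≤ α) (hβ : 0 ≤ β) (hγ : 0 < α + β) (ha : 0 < a) (ha1 : a ≤ 1) (ζ : ℂ)
    (hζ : ‖ζ‖ = 1) (hA : a ≤ (1 - ρ * ζ).re) (E : ℂ → ℂ) (hE : Differentiable ℂ E)
    (hEb : ∀ z, ‖z‖ ≤ 2 → ‖E z‖ ≤ a ^ 2 / 32) (w₀ : ℂ)
    (hw : ζ ^ n * exp w₀ * (α + β * (1 - ρ * ζ)) = (1 - ρ * ζ) ^ 2)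
    (hs : ‖w₀‖ + 1 ≤ n * (a ^ 3 / 4000)) :
    ∃ w, ‖w - w₀‖ ≤ 1 / 2 ∧
      (ζ * exp (w / n)) ^ n * (α + β * (1 - ρ * (ζ * exp (w / n)))) =
      (1 - ρ * (ζ * exp (w / n))) ^ 2 - E (ζ * exp (w / n)) := by
  have hn' : (0 : ℝ) < n := by exact_mod_cast hn0
  have hnc : (n : ℂ) ≠ 0 := by exact_mod_cast hn0.ne'
  have a2p : 0 < a ^ 2 := by positivity
  have a3p : 0 < a ^ 3 := by positivity
  have a3l : a ^ 3 ≤ a ^ 2 := by nlinarith
  have a3l1 : a ^ 3 ≤ 1 := pow_le_one₀ ha.le ha1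
  set A : ℂ := 1 - ρ * ζ with hAd
  set B : ℂ := α + β * A with hBd
  have hA1 : a ≤ ‖A‖ := hA.trans (Complex.re_le_norm A)
  have hA3 : ‖A‖ ≤ 3 := by
    refine (norm_sub_le _ _).trans ?_
    rw [norm_one, norm_mul, hζ, norm_real, Real.norm_eq_abs, abs_of_pos (by linarith)]
    linarith
  have hBre : B.re = α + β * A.re := by simp [hBd]
  have hB1 : β * a ≤ ‖B‖ := by
    refine le_trans ?_ (Complex.re_le_norm B)
    rw [hBre]
    nlinarith
  set P0 : ℂ := ζ ^ n * exp w₀ with hP0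
  have hP1 : ‖P0‖ * ‖B‖ = ‖A‖ ^ 2 := by rw [← norm_mul, hw, norm_pow]
  have hP2 : ‖P0 * β‖ * a ≤ 9 := by
    rw [norm_mul, norm_real, Real.norm_eq_abs, abs_of_nonneg hβ]
    have := mul_le_mul_of_nonneg_left hB1 (norm_nonneg P0)
    nlinarith [norm_nonneg A]
  let G : ℂ → ℂ := fun w => ζ ^ n * exp w * (α + β * (1 - ρ * (ζ * exp (w / n))))
    - (1 - ρ * (ζ * exp (w / n))) ^ 2 + E (ζ * exp (w / n))
  have hG : Differentiable ℂ G := by
    have : Differentiable ℂ fun w : ℂ => E (ζ * exp (w / n)) := hE.comp (by fun_prop)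
    simp only [G]; fun_prop
  have key : ∀ w, ‖w - w₀‖ ≤ 1 / 2 → ‖G w - A ^ 2 * (exp (w - w₀) - 1)‖ ≤ a ^ 2 / 16 := by
    intro w hw2
    have a1 : ‖w / n‖ ≤ a ^ 3 / 4000 := by
      rw [norm_div, Complex.norm_natCast, div_le_iff₀ hn']
      have := norm_add_le (w - w₀) w₀
      rw [sub_add_cancel] at this
      linarith
    have a2 : ‖exp (w / n) - 1‖ ≤ a ^ 3 / 2000 :=
      (norm_exp_sub_one_le (by linarith)).trans (by linarith)
    have a3 : ‖exp (w - w₀)‖ ≤ 2 := by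
      have := norm_add_le (exp (w - w₀) - 1) 1
      rw [sub_add_cancel, norm_one] at this
      linarith [norm_exp_sub_one_le (x := w - w₀) (by linarith)]
    set d := exp (w / n) - 1 with hd
    have a4 : exp (w / n) = 1 + d := by rw [hd]; ring
    have a5 := hEb (ζ * exp (w / n)) (by
      rw [norm_mul, hζ, one_mul, a4]
      refine (norm_add_le _ _).trans ?_
      rw [norm_one]; linarith)
    have a6 : exp w = exp w₀ * exp (w - w₀) := by rw [← exp_add]; congr 1; ring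
    have e : G w - A ^ 2 * (exp (w - w₀) - 1) =
        -(exp (w - w₀) * ((P0 * β) * (ρ * ζ * d)))
        + (ρ * ζ * d) * (2 * A - ρ * ζ * d) + E (ζ * exp (w / n)) := by
      simp only [G]
      rw [a6]
      generalize E (ζ * exp (w / n)) = e
      rw [a4]
      linear_combination (exp (w - w₀)) * hw
    have b1 : ‖(ρ : ℂ) * ζ * d‖ ≤ a ^ 3 / 1000 := by
      rw [norm_mul, norm_mul, hζ, norm_real, Real.norm_eq_abs, abs_of_pos (by linarith)]
      nlinarith [norm_nonneg d]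
    have b2 : ‖2 * A - ρ * ζ * d‖ ≤ 7 := by
      refine (norm_sub_le _ _).trans ?_
      have : ‖2 * A‖ ≤ 6 := by rw [norm_mul]; norm_num; linarith
      linarith
    rw [e]
    refine (norm_add_le _ _).trans ((add_le_add_left (norm_add_le _ _) _).trans ?_)
    have c1 : ‖-(exp (w - w₀) * ((P0 * β) * (ρ * ζ * d)))‖ ≤ 18 * a ^ 2 / 1000 := by
      rw [norm_neg, norm_mul, norm_mul (P0 * β)]
      have q1 : ‖P0 * β‖ * ‖(ρ : ℂ) * ζ * d‖ ≤ ‖P0 * β‖ * (a ^ 3 / 1000) := by gcongr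
      have q2 : ‖P0 * β‖ * (a ^ 3 / 1000) ≤ 9 * a ^ 2 / 1000 := by nlinarith
      calc _ ≤ 2 * (9 * a ^ 2 / 1000) :=
            mul_le_mul a3 (q1.trans q2) (by positivity) (by norm_num)
        _ = _ := by ring
    have c2 : ‖((ρ : ℂ) * ζ * d) * (2 * A - ρ * ζ * d)‖ ≤ a ^ 3 / 1000 * 7 := by
      rw [norm_mul _ (2 * A - ρ * ζ * d)]; gcongr
    linarith
  have : ∃ w, ‖w - w₀‖ ≤ 1 / 2 ∧ G w = 0 := by
    by_contra hc
    push Not at hc
    have hd : DiffContOnCl ℂ (fun w => (G w)⁻¹) (ball w₀ (1 / 2)) := by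
      apply DifferentiableOn.diffContOnCl
      rw [closure_ball _ (by norm_num)]
      exact hG.differentiableOn.inv fun w hw => hc w (by rwa [mem_closedBall, dist_eq_norm] at hw)
    have := norm_le_of_forall_mem_frontier_norm_le isBounded_ball hd (C := (3 * a ^ 2 / 16)⁻¹)
      (fun w hw => by
      rw [frontier_ball _ (by norm_num), mem_sphere, dist_eq_norm] at hw
      have k1 := key w hw.le
      have k2 := norm_exp_sub_one_sub_id_le (x := w - w₀) (by linarith)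
      have k3 : 1 / 4 ≤ ‖exp (w - w₀) - 1‖ := by
        have := norm_sub_le (exp (w - w₀) - 1) (exp (w - w₀) - 1 - (w - w₀))
        rw [sub_sub_cancel, hw] at this
        rw [hw] at k2
        linarith
      have k4 : a ^ 2 / 4 ≤ ‖A ^ 2 * (exp (w - w₀) - 1)‖ := by
        rw [norm_mul, norm_pow]
        calc a ^ 2 / 4 = a ^ 2 * (1 / 4) := by ring
          _ ≤ _ := by gcongr
      have k5 := norm_sub_le (G w) (G w - A ^ 2 * (exp (w - w₀) - 1))
      rw [sub_sub_cancel] at k5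
      rw [norm_inv]
      exact inv_anti₀ (by positivity) (by linarith)) (subset_closure (mem_ball_self
        (by norm_num)))
    have k := key w₀ (by simp)
    simp only [sub_self, exp_zero, mul_zero, sub_zero] at k
    have k0 : 0 < ‖G w₀‖ := norm_pos_iff.2 (hc w₀ (by simp))
    rw [norm_inv, inv_le_inv₀ k0 (by positivity)] at this
    linarith
  obtain ⟨w, h3, h4⟩ := this
  refine ⟨w, h3, ?_⟩
  rw [mul_pow, ← exp_nat_mul, mul_div_cancel₀ _ hnc]
  simp only [G] at h4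
  linear_combination h4

theorem sector (θ η σ : ℝ) (hη : 0 < η) (hσ : 0 < σ) : ∃ κ > 0, κ ≤ 1 / 10000 ∧
    ∀ (t n : ℝ) (w : ℂ), 1 / κ ≤ t → t ≤ κ * n → ‖w + t * exp (θ * I)‖ ≤ 4 →
      ∃ r θ' : ℝ, 0 < r ∧ r < σ ∧ |θ' - θ| < η ∧ -exp (w / n) = -1 + r * exp (θ' * I) := by
  obtain ⟨δ, hδ, hδ'⟩ := Metric.continuousAt_iff.1
    (continuousAt_arg (x := 1) (by simp [slitPlane])) η hη
  set κ := min (min (δ / 9) (σ / 3)) (1 / 10000) with hκ
  have k0 : 0 < κ := by positivity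
  have k1 : κ ≤ δ / 9 := (min_le_left _ _).trans (min_le_left _ _)
  have k2 : κ ≤ σ / 3 := (min_le_left _ _).trans (min_le_right _ _)
  have k3 : κ ≤ 1 / 10000 := min_le_right _ _
  refine ⟨κ, k0, k3, fun t n w h1 h2 h3 => ?_⟩
  have t1 : 1 ≤ t * κ := (div_le_iff₀ k0).1 h1
  have t2 : 10000 ≤ t := by nlinarith
  have n0 : 0 < n := by nlinarith
  have tn : t / n ≤ κ := (div_le_iff₀ n0).2 h2
  have tn0 : 0 < t / n := by positivity
  have he : ‖exp (θ * I)‖ = 1 := norm_exp_ofReal_mul_I θ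
  have hw : ‖w / n‖ ≤ 2 * (t / n) := by
    have := norm_sub_le (w + t * exp (θ * I)) (t * exp (θ * I))
    rw [add_sub_cancel_right, norm_mul, he, norm_real, Real.norm_eq_abs,
      abs_of_pos (by linarith)] at this
    rw [norm_div, norm_real, Real.norm_eq_abs, abs_of_pos n0, ← mul_div_assoc]
    gcongr; linarith
  have hx := norm_exp_sub_one_sub_id_le (x := w / n) (by linarith)
  set c : ℂ := ((t / n : ℝ) : ℂ) * exp (θ * I) with hc
  have hcn : ‖c‖ = t / n := by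
    rw [hc, norm_mul, he, norm_real, Real.norm_eq_abs, abs_of_pos tn0, mul_one]
  have hc0 : c ≠ 0 := norm_pos_iff.1 (hcn ▸ tn0)
  set v := (1 - exp (w / n)) / c with hv
  have hv1 : ‖v - 1‖ ≤ 8 * κ := by
    have nc : (n : ℂ) ≠ 0 := by exact_mod_cast n0.ne'
    have : v - 1 = (-(exp (w / n) - 1 - w / n) - (w + t * exp (θ * I)) / n) / c := by
      rw [hv, div_sub_one hc0, hc]; push_cast; congr 1; ring
    rw [this, norm_div, hcn, div_le_iff₀ tn0]
    refine (norm_sub_le _ _).trans ?_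
    rw [norm_neg, norm_div, norm_real, Real.norm_eq_abs, abs_of_pos n0]
    have q1 : ‖w / n‖ ^ 2 ≤ (2 * (t / n)) ^ 2 := by gcongr
    have q2 : ‖w + t * exp (θ * I)‖ / n ≤ 4 * κ * (t / n) := by
      rw [← mul_div_assoc]; gcongr; linarith
    nlinarith
  have hv2 : ‖v‖ ≤ 2 := by
    have := norm_add_le (v - 1) 1
    rw [sub_add_cancel, norm_one] at this
    linarith
  have hv3 : 0 < ‖v‖ := by
    have := norm_sub_le v (v - 1)
    rw [sub_sub_cancel, norm_one] at this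
    linarith
  refine ⟨t / n * ‖v‖, θ + arg v, by positivity, by nlinarith, ?_, ?_⟩
  · have := hδ' (x := v) (by rw [dist_eq_norm]; linarith)
    simpa [Real.dist_eq] using this
  · have e1 : 1 - exp (w / n) = c * v := by rw [hv]; field_simp
    have e2 := norm_mul_exp_arg_mul_I v
    rw [ofReal_add, add_mul, exp_add, ofReal_mul]
    linear_combination e1 - c * e2 + (‖v‖ * exp (arg v * I)) * hc.symm.symm - 2 * (‖v‖ * exp (arg v * I)) * hc + (‖v‖ * exp (arg v * I)) * hc + (‖v‖ * exp (arg v * I)) * hc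

theorem core (θ η σ a : ℝ) (hθ : Real.cos θ ≠ 0) (hη : 0 < η) (hσ : 0 < σ) (ha : 0 < a)
    (ha1 : a ≤ 1) : ∃ κ > 0,
    ∀ (n : ℕ) (ρ α β : ℝ) (E : ℂ → ℂ), 1 ≤ ρ → ρ ≤ 2 → 0 ≤ α → 0 ≤ β → 0 < α + β →
      Differentiable ℂ E → (∀ z, ‖z‖ ≤ 2 → ‖E z‖ ≤ a ^ 2 / 32) → ∀ ζ : ℂ, ‖ζ‖ = 1 →
      a ≤ (1 - ρ * ζ).re → ∀ l : ℝ,
      l = Real.log (‖1 - ρ * ζ‖ ^ 2 / ‖α + β * (1 - ρ * ζ)‖) → l * Real.cos θ < 0 →
      1 / κ ≤ |l| →
      |l| ≤ κ * n → ∃ (r θ' : ℝ) (z : ℂ), 0 < r ∧ r < σ ∧ |θ' - θ| < η ∧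
        z = ζ - ζ * (r * exp (θ' * I)) ∧ z ^ n * (α + β * (1 - ρ * z)) = (1 - ρ * z) ^ 2 - E z := by
  obtain ⟨κ₀, k0', k1', hκ'⟩ := sector θ η σ hη hσ
  set κ := min κ₀ (a ^ 3 / 10000) with hκd
  have a3p : 0 < a ^ 3 := by positivity
  have a3l1 : a ^ 3 ≤ 1 := pow_le_one₀ ha.le ha1
  have k0 : 0 < κ := lt_min k0' (by positivity)
  have kl : κ ≤ κ₀ := min_le_left _ _
  have kl2 : κ ≤ a ^ 3 / 10000 := min_le_right _ _
  have k1 : κ ≤ 1 / 10000 := kl.trans k1'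
  have c0 : 0 < |Real.cos θ| := abs_pos.2 hθ
  have c1 : |Real.cos θ| ≤ 1 := Real.abs_cos_le_one θ
  refine ⟨κ * |Real.cos θ|, by positivity,
    fun n ρ α β E h1 h2 hα hβ hγ hE hEb ζ hζ hA l hl s1 s2 s3 => ?_⟩
  set t := -l / Real.cos θ with ht
  have tc : t * Real.cos θ = -l := by rw [ht]; field_simp
  have t0 : 0 < t := by
    rw [ht, show -l / Real.cos θ = -(l * Real.cos θ) / Real.cos θ ^ 2 by field_simp]
    exact div_pos (by linarith) (by positivity)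
  have ta : t * |Real.cos θ| = |l| := by rw [← abs_neg l, ← tc, abs_mul, abs_of_pos t0]
  have u1 : 1 / κ ≤ t := by
    rw [div_le_iff₀ (by positivity)] at s2 ⊢
    have : |l| * (κ * |Real.cos θ|) ≤ t * 1 * (κ * 1) := by rw [← ta]; gcongr
    linarith
  have u2 : t ≤ κ * n := le_of_mul_le_mul_right (by rw [ta]; linarith) c0
  have t1 : 1 ≤ t * κ := (div_le_iff₀ k0).1 u1
  have t2 : 10000 ≤ t := by nlinarith
  have n1 : 10000 * t ≤ n := by nlinarith [Nat.cast_nonneg (α := ℝ) n]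
  have n0 : 0 < n := by exact_mod_cast (show (0 : ℝ) < n by linarith)
  have n0' : (0 : ℝ) < n := by exact_mod_cast n0
  have n2 : t ≤ a ^ 3 / 10000 * n := u2.trans (by gcongr)
  set A : ℂ := 1 - ρ * ζ with hAd
  set B : ℂ := α + β * A with hBd
  have hA1 : a ≤ ‖A‖ := hA.trans (Complex.re_le_norm A)
  have hBre : B.re = α + β * A.re := by simp [hBd]
  have hB1 : 0 < ‖B‖ := by
    refine lt_of_lt_of_le ?_ (Complex.re_le_norm B)
    rw [hBre]
    have : a * β ≤ β * A.re := by rw [mul_comm a β]; gcongr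
    rcases hα.eq_or_lt with h | h
    · rw [← h] at hγ ⊢
      have : 0 < a * β := mul_pos ha (by linarith)
      linarith
    · have : 0 ≤ a * β := by positivity
      linarith
  have hBne : B ≠ 0 := norm_pos_iff.1 hB1
  have hAne : A ≠ 0 := norm_pos_iff.1 (by linarith)
  have hζne : ζ ≠ 0 := norm_pos_iff.1 (by rw [hζ]; norm_num)
  set Λ : ℂ := A ^ 2 / (ζ ^ n * B) with hΛ
  have hΛne : Λ ≠ 0 := div_ne_zero (pow_ne_zero _ hAne) (mul_ne_zero (pow_ne_zero _ hζne) hBne)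
  have hΛn : ‖Λ‖ = ‖A‖ ^ 2 / ‖B‖ := by
    rw [hΛ, norm_div, norm_pow, norm_mul, norm_pow, hζ, one_pow, one_mul]
  set φ := arg Λ with hφ
  have hexp : exp ((l : ℂ) + φ * I) = Λ := by
    rw [exp_add, ← ofReal_exp, hl, ← hΛn, Real.exp_log (norm_pos_iff.2 hΛne), hφ]
    exact norm_mul_exp_arg_mul_I Λ
  set m := round (-(t * Real.sin θ + φ) / (2 * Real.pi)) with hm
  have hp := Real.pi_pos
  have m1 : |m * (2 * Real.pi) + (t * Real.sin θ + φ)| ≤ Real.pi := by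
    have := abs_sub_round (-(t * Real.sin θ + φ) / (2 * Real.pi))
    rw [show m * (2 * Real.pi) + (t * Real.sin θ + φ) =
      -((-(t * Real.sin θ + φ) / (2 * Real.pi) - m) * (2 * Real.pi)) by field_simp; ring, abs_neg,
      abs_mul, abs_of_pos (show 0 < 2 * Real.pi by positivity)]
    nlinarith
  have w1 : ‖((l : ℂ) + φ * I + m * (2 * Real.pi * I)) + t * exp (θ * I)‖ ≤ Real.pi := by
    have tc' : (t : ℂ) * cos θ = -l := by exact_mod_cast tc
    rw [show ((l : ℂ) + φ * I + m * (2 * Real.pi * I)) + t * exp (θ * I) =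
      ((m * (2 * Real.pi) + (t * Real.sin θ + φ) : ℝ) : ℂ) * I by
        rw [exp_mul_I]; push_cast; linear_combination tc', norm_mul, norm_I, mul_one, norm_real]
    exact m1
  obtain ⟨w, w2, w3⟩ := zero_near n n0 ρ α β a h1 h2 hα hβ hγ ha ha1 ζ hζ hA E hE hEb
    ((l : ℂ) + φ * I + m * (2 * Real.pi * I)) (by
      rw [exp_add ((l : ℂ) + φ * I), exp_int_mul_two_pi_mul_I, mul_one, hexp, ← hAd, ← hBd, hΛ]
      field_simp) (by
      have := norm_sub_le (((l : ℂ) + φ * I + m * (2 * Real.pi * I)) + t * exp (θ * I))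
        (t * exp (θ * I))
      rw [add_sub_cancel_right, norm_mul, norm_exp_ofReal_mul_I, norm_real, Real.norm_eq_abs,
        abs_of_pos t0] at this
      nlinarith [Real.pi_lt_four])
  obtain ⟨r, θ', r1, r2, r3, r4⟩ := hκ' t n w
    (le_trans (by gcongr) u1) (u2.trans (by gcongr)) (by
    have := norm_add_le (w - ((l : ℂ) + φ * I + m * (2 * Real.pi * I)))
      (((l : ℂ) + φ * I + m * (2 * Real.pi * I)) + t * exp (θ * I))
    rw [← add_assoc, sub_add_cancel] at this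
    linarith [Real.pi_lt_d2])
  refine ⟨r, θ', ζ * exp (w / n), r1, r2, r3, ?_, w3⟩
  have r4' : -exp (w / n) = -1 + r * exp (θ' * I) := by simpa using r4
  linear_combination -ζ * r4'

end Pool.Agent.H34.Opz
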